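import Pool.Agent.Strip051.Four.Main

/-! # Molnar's bound for all widths with two rows, from the count bounds -/

namespace Pool.Agent.Strip051.Rows2

open Pool.Agent.StripNear Pool.Agent.StripSquare Pool.Agent.Strip051
open Pool.Agent.StripTwo (rowNumber molnar)
open Pool.Agent.Strip051.Four (rowNumber_two)

/-- From the counting bounds for the heights `2 h0 + s`, `0 ≤ s < h0`, to densities. -/
theorem molnar_of_count (h : ∀ s, 0 ≤ s → s < h0 → CountBound 2 s) {w : ℝ}
    (h1 : 2 + 2 * Real.sqrt 3 ≤ w) (h2 : w < 2 + 3 * Real.sqrt 3) {C : Set E2}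
    (hC : IsStripPacking w C) {O : E2} {d : ℝ} (hd : HasDensity w C O d) : d ≤ molnar w := by
  have h3 : 0 < Real.sqrt 3 := Real.sqrt_pos.2 (by norm_num)
  have hr := rowNumber_two h1 h2
  have hw : 2 ≤ w := by linarith
  obtain ⟨r0, r1, -⟩ := rest_spec hw
  apply le_molnar_of_count hw _ hC hd
  rw [hr]
  exact h _ r0 r1

end Pool.Agent.Strip051.Rows2
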