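import Pool.Agent.Strip051.Four.All
import Pool.Agent.Strip051.FourC.All
import Pool.Agent.Strip051.FourE.Main
import Pool.Agent.Strip051.FourG.All
import Pool.Agent.Strip051.FourF.HighAbove
import Pool.Agent.Strip051.FourD.Main
import Pool.Agent.Strip051.FourB.All
import Pool.Agent.Strip051.Rows2.Widths

/-! # The count bound with two rows for all `0 ≤ s < h0`, and Molnár's bound -/

namespace Pool.Agent.Strip051.Rows2

open Pool.Agent.StripNear Pool.Agent.StripSquare Pool.Agent.Strip051
open Pool.Agent.StripTwo (molnar)

theorem countBound {s : ℝ} (h1 : 0 ≤ s) (h2 : s < h0) : CountBound 2 s := by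
  have hh := h0_gt
  have hl := h0_lt
  rcases le_total s (h0 / 2) with a1 | a1
  · exact Four.countBound h1 a1
  rcases le_total s (53 / 100) with a2 | a2
  · exact FourC.countBound (by linarith) a2
  rcases le_total s (57 / 100) with a3 | a3
  · exact FourE.countBound (by linarith) a3
  rcases le_total s (3 / 5) with a4 | a4
  · exact FourG.countBound a3 (by linarith)
  rcases le_total s (67 / 100) with a5 | a5
  · exact FourF.countBound a4 a5
  rcases le_total s (17 / 20 * h0) with a6 | a6
  · exact FourD.countFour (by linarith) a6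
  · exact FourB.countBound a6 h2

theorem molnar_rows2 {w : ℝ} (h1 : 2 + 2 * Real.sqrt 3 ≤ w) (h2 : w < 2 + 3 * Real.sqrt 3)
    {C : Set E2} (hC : IsStripPacking w C) {O : E2} {d : ℝ} (hd : HasDensity w C O d) :
    d ≤ molnar w :=
  molnar_of_count (fun _ => countBound) h1 h2 hC hd

end Pool.Agent.Strip051.Rows2
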